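import Pool.Agent.X96.TW.Fin

/-!
The root of the Thomas-Fermi-von Weizsaecker atomic density is not always a convex function of the
radius: for the exponent `p = 2` there are parameters for which no density whose energy is within
`ε > 0` of the infimum has a convex (or log convex) root; in particular the minimiser has not. In
this regime the gradient term and the repulsion are small, and the density is close in `L²` to
`(1/|x| - 1)₊`, the root of which is concave near the edge `|x| = 1`.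
-/

set_option autoImplicit false

open MeasureTheory Set Filter Topology
open scoped ContDiff

namespace Pool.Agent.Results.MP_3d36e1_mp.NotConvex

/-- Three-dimensional Euclidean space. -/
abbrev R3 := EuclideanSpace ℝ (Fin 3)

/-- `G` is the weak gradient of `h`. -/
def IsWeakGradient (h : R3 → ℝ) (G : R3 → R3) : Prop :=
  ∀ φ : R3 → ℝ, ContDiff ℝ ∞ φ → HasCompactSupport φ → ∀ v : R3,
    ∫ x, h x * fderiv ℝ φ x v = - ∫ x, inner ℝ (G x) v * φ x

/-- The admissible densities `ρ ≥ 0`: `ρ ∈ L¹ ∩ L^p`, `D(ρ, ρ) < ∞` and `∇ √ρ = G ∈ L²`. -/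
structure Admissible (p : ℝ) (ρ : R3 → ℝ) (G : R3 → R3) : Prop where
  nonneg : ∀ x, 0 ≤ ρ x
  integrable : Integrable ρ
  power : Integrable (fun x => ρ x ^ p)
  self : Integrable (fun q : R3 × R3 => ρ q.1 * ρ q.2 / ‖q.1 - q.2‖)
  weak : IsWeakGradient (fun x => √(ρ x)) G
  gradient : MemLp G 2

/-- The Thomas-Fermi-von Weizsaecker energy
`A ∫ |∇ √ρ|² + (γ / p) ∫ ρ^p - ∫ (z / |x|) ρ + D(ρ, ρ)`,
`D(ρ, ρ) = (1/2) ∫∫ ρ(x) ρ(y) / |x - y|`. -/
noncomputable def energy (A γ p z : ℝ) (ρ : R3 → ℝ) (G : R3 → R3) : ℝ :=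
  A * (∫ x, ‖G x‖ ^ 2) + γ / p * (∫ x, ρ x ^ p) - (∫ x, z / ‖x‖ * ρ x)
    + 1 / 2 * ∫ q : R3 × R3, ρ q.1 * ρ q.2 / ‖q.1 - q.2‖

/-- The density `ρ` minimises the energy up to `ε` among the admissible densities with integral at
most `lam`. With `ε = 0` it is a minimiser. -/
def NearMinimizer (A γ p z lam ε : ℝ) (ρ : R3 → ℝ) (G : R3 → R3) : Prop :=
  Admissible p ρ G ∧ ∫ x, ρ x ≤ lam ∧ ∀ (ρ' : R3 → ℝ) (G' : R3 → R3), Admissible p ρ' G' →
    ∫ x, ρ' x ≤ lam → energy A γ p z ρ G ≤ energy A γ p z ρ' G' + ε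

open Pool.Agent.X96.TW in
/-- the energy as a perturbation of the limit functional -/
theorem energy_eq (K a : ℝ) (ρ : R3 → ℝ) (G : R3 → R3) :
    energy (K * a) K 2 K ρ G = K * (a * (∫ x, ‖G x‖ ^ 2) + E0 ρ)
      + 1 / 2 * ∫ q : R3 × R3, ρ q.1 * ρ q.2 / ‖q.1 - q.2‖ := by
  have e1 : ∫ x, ρ x ^ (2 : ℝ) = ∫ x, ρ x ^ 2 := by
    simp only [Real.rpow_two]
  have e2 : ∫ x, K / ‖x‖ * ρ x = K * ∫ x, ρ x / ‖x‖ := by
    rw [← integral_const_mul]
    congr 1
    funext x
    ring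
  unfold energy E0
  rw [e1, e2]
  ring

open Pool.Agent.X96.TW in
/-- There are positive `A, γ, z, lam` and `ε > 0` such that for the exponent `p = 2` no radial
density `ρ(x) = ψ(|x|)²` which minimises the energy up to `ε` under the condition `∫ ρ ≤ lam` (in
particular no minimiser) has a convex or a log convex root `ψ`. Such densities exist. -/
theorem result : ∃ A γ z lam ε : ℝ, 0 < A ∧ 0 < γ ∧ 0 < z ∧ 0 < lam ∧ 0 < ε ∧
    (∃ (ρ : R3 → ℝ) (G : R3 → R3) (ψ : ℝ → ℝ), NearMinimizer A γ 2 z lam ε ρ G ∧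
      ∀ x, √(ρ x) = ψ ‖x‖) ∧
    ∀ (ρ : R3 → ℝ) (G : R3 → R3) (ψ : ℝ → ℝ), NearMinimizer A γ 2 z lam ε ρ G →
      (∀ᵐ x, √(ρ x) = ψ ‖x‖) →
      ¬ ConvexOn ℝ (Ioi 0) ψ ∧
        ((∀ r, 0 < r → 0 < ψ r) → ¬ ConvexOn ℝ (Ioi 0) (fun r => Real.log (ψ r))) := by
  have hc := cc_pos
  obtain ⟨n, hn⟩ : ∃ n, E0 (rs n) < E0 rho0 + cc / 16 :=
    (E0_tendsto.eventually_lt_const (show E0 rho0 < E0 rho0 + cc / 16 by linarith)).exists
  set T : ℝ := ∫ x, ‖gt n x‖ ^ 2 with hT
  set D : ℝ := 1 / 2 * ∫ q : R3 × R3, rs n q.1 * rs n q.2 / ‖q.1 - q.2‖ with hD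
  have hT0 : 0 ≤ T := integral_nonneg fun x => by positivity
  have hD0 : 0 ≤ D := by
    have : 0 ≤ ∫ q : R3 × R3, rs n q.1 * rs n q.2 / ‖q.1 - q.2‖ :=
      integral_nonneg fun q => div_nonneg (mul_nonneg (rs_nonneg n _) (rs_nonneg n _))
        (norm_nonneg _)
    positivity
  set a : ℝ := cc / (16 * (T + 1)) with ha
  set K : ℝ := 16 * (D + 1) / cc with hK
  have ha0 : 0 < a := by positivity
  have hK0 : 0 < K := by positivity
  have haT : a * T ≤ cc / 16 := by
    rw [ha, div_mul_eq_mul_div, div_le_div_iff₀ (by positivity) (by norm_num)]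
    nlinarith
  have hDK : D ≤ K * (cc / 16) := by
    have : K * (cc / 16) = D + 1 := by
      rw [hK]
      field_simp
    linarith
  have hlam : 0 < ∫ x, rho0 x := by
    have h1 : ∫ x, rho0 x ≠ 0 := by
      intro h
      have h2 := (integral_eq_zero_iff_of_nonneg rho0_nonneg int_rho0).mp h
      have h3 : ∀ᵐ x : R3, rho0 x = 0 := h2
      have h4 := shell_pos (a := 1 / 2) (b := 51 / 100) (by norm_num) (by norm_num)
      have h5 : volume (shell (1 / 2) (51 / 100)) = 0 := by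
        refine measure_mono_null ?_ (ae_iff.mp h3)
        intro x hx
        have h6 := hx.1
        have h7 := hx.2
        show ¬ rho0 x = 0
        rw [rho0_in (by linarith) (by linarith)]
        have : 1 < 1 / ‖x‖ := by
          rw [lt_div_iff₀ (by linarith)]
          linarith
        intro h8
        linarith
      rw [h5] at h4
      simp at h4
    exact lt_of_le_of_ne (integral_nonneg rho0_nonneg) (Ne.symm h1)
  -- the trial density
  have hadm : Admissible 2 (rs n) (gt n) := by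
    refine ⟨rs_nonneg n, rs_int n, ?_, rs_self n, ?_, gt_mem n⟩
    · simp only [Real.rpow_two]
      exact rs_int_sq n
    · intro φ hφ hcs v
      simp only [rs_sqrt]
      exact gt_weak n φ hφ hcs v
  have hup : energy (K * a) K 2 K (rs n) (gt n) ≤ K * (E0 rho0 + 3 * (cc / 16)) := by
    rw [energy_eq]
    have h1 : a * T + E0 (rs n) ≤ E0 rho0 + 2 * (cc / 16) := by linarith
    have h2 := mul_le_mul_of_nonneg_left h1 hK0.le
    nlinarith
  -- lower bound
  have hlow : ∀ (ρ : R3 → ℝ) (G : R3 → R3), Admissible 2 ρ G → ∫ x, ρ x ≤ ∫ x, rho0 x →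
      K * (E0 rho0 + 1 / 2 * ∫ x, (ρ x - rho0 x) ^ 2) ≤ energy (K * a) K 2 K ρ G := by
    intro ρ G h hm
    have h2 : Integrable (fun x => ρ x ^ 2) := by
      have := h.power
      simpa only [Real.rpow_two] using this
    have h3 := core (Eventually.of_forall h.nonneg) h.integrable h2 hm
    have h4 : 0 ≤ ∫ x, ‖G x‖ ^ 2 := integral_nonneg fun x => by positivity
    have h5 : 0 ≤ ∫ q : R3 × R3, ρ q.1 * ρ q.2 / ‖q.1 - q.2‖ :=
      integral_nonneg fun q => div_nonneg (mul_nonneg (h.nonneg _) (h.nonneg _)) (norm_nonneg _)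
    rw [energy_eq]
    have h6 : E0 rho0 + 1 / 2 * ∫ x, (ρ x - rho0 x) ^ 2 ≤ a * (∫ x, ‖G x‖ ^ 2) + E0 ρ := by
      have := mul_nonneg ha0.le h4
      linarith
    have h7 := mul_le_mul_of_nonneg_left h6 hK0.le
    linarith
  refine ⟨K * a, K, K, ∫ x, rho0 x, K * (3 * (cc / 16)), by positivity, hK0, hK0, hlam,
    by positivity, ?_, ?_⟩
  · refine ⟨rs n, gt n, fun r => √(max (1 / max r (dl n) - 1) 0 + dl n) - √(dl n),
      ⟨hadm, rs_mass n, ?_⟩, fun x => rs_sqrt n x⟩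
    intro ρ' G' h hm
    have h1 := hlow ρ' G' h hm
    have h2 : 0 ≤ ∫ x, (ρ' x - rho0 x) ^ 2 := integral_nonneg fun x => sq_nonneg _
    have h3 : K * E0 rho0 ≤ K * (E0 rho0 + 1 / 2 * ∫ x, (ρ' x - rho0 x) ^ 2) :=
      mul_le_mul_of_nonneg_left (by linarith) hK0.le
    linarith
  · intro ρ G ψ hnear hψ
    obtain ⟨h, hm, hmin⟩ := hnear
    have h2 : Integrable (fun x => ρ x ^ 2) := by
      have := h.power
      simpa only [Real.rpow_two] using this
    have h3 := hlow ρ G h hm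
    have h4 := hmin _ _ hadm (rs_mass n)
    have h5 : K * (E0 rho0 + 1 / 2 * ∫ x, (ρ x - rho0 x) ^ 2) ≤ K * (E0 rho0 + 6 * (cc / 16)) := by
      linarith
    have h6 := le_of_mul_le_mul_left h5 hK0
    have h7 : ∫ x, (ρ x - rho0 x) ^ 2 < cc := by linarith
    have h8 := not_convex (Eventually.of_forall h.nonneg) h.integrable h2 h7 hψ
    refine ⟨h8, fun hpos hlog => h8 ?_⟩
    have h9 : ConvexOn ℝ (Ioi (0 : ℝ)) (fun r => Real.exp (Real.log (ψ r))) := by
      refine ⟨convex_Ioi 0, fun x hx y hy s t hs ht hst => ?_⟩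
      have k1 := hlog.2 hx hy hs ht hst
      have k2 := convexOn_exp.2 (mem_univ (Real.log (ψ x))) (mem_univ (Real.log (ψ y))) hs ht hst
      exact (Real.exp_le_exp.mpr k1).trans k2
    refine ⟨convex_Ioi 0, fun x hx y hy s t hs ht hst => ?_⟩
    have k1 := h9.2 hx hy hs ht hst
    have k2 : s • x + t • y ∈ Ioi (0 : ℝ) := (convex_Ioi (0 : ℝ)) hx hy hs ht hst
    simp only [Real.exp_log (hpos _ hx), Real.exp_log (hpos _ hy), Real.exp_log (hpos _ k2)] at k1
    exact k1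

end Pool.Agent.Results.MP_3d36e1_mp.NotConvex
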